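import Pool.Agent.Helper71.PY.Goals

/-!
# Packet PY-FREE (MP_293fae_al)
-/

set_option autoImplicit false

namespace Pool.Agent.Helper27.PY

open Pool.Agent.Helper71.PY

section

variable {R : Type} [CommRing R] {M : Type} [AddCommGroup M] [Module R M]

theorem pow_div {x y : R} (h : ∀ m m' : M, y • m = x • m' → ∃ m'' : M, m = x • m'') :
    ∀ (k : ℕ) (m m' : M), y ^ k • m = x • m' → ∃ m'' : M, m = x • m'' := by
  intro k
  induction k with
  | zero =>
    intro m m' hm
    exact ⟨m', by simpa using hm⟩
  | succ k ih =>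
    intro m m' hm
    have h1 : y • (y ^ k • m) = x • m' := by
      rw [← mul_smul, ← pow_succ']
      exact hm
    obtain ⟨m1, hm1⟩ := h _ _ h1
    exact ih m m1 hm1

/-- If one element of a finite generating family is a combination of the others we can drop it. -/
theorem drop_gen {n : ℕ} (f : Fin (n + 1) → M) (hf : Submodule.span R (Set.range f) = ⊤)
    (i0 : Fin (n + 1)) (e : Fin (n + 1) → R) (he : IsUnit (e i0)) (hs : ∑ i, e i • f i = 0) :
    ∃ g : Fin n → M, Submodule.span R (Set.range g) = ⊤ := by
  refine ⟨fun j => f (i0.succAbove j), ?_⟩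
  have hmem : ∀ i, f i ∈ Submodule.span R (Set.range fun j => f (i0.succAbove j)) := by
    intro i
    by_cases hi : i = i0
    · subst hi
      rw [Fin.sum_univ_succAbove _ i] at hs
      have h1 : e i • f i = -∑ j, e (i.succAbove j) • f (i.succAbove j) :=
        eq_neg_of_add_eq_zero_left hs
      obtain ⟨u, hu⟩ := he
      have h2 : f i = (↑u⁻¹ : R) • (e i • f i) := by
        rw [← mul_smul, ← hu, Units.inv_mul, one_smul]
      rw [h2, h1]
      refine Submodule.smul_mem _ _ (Submodule.neg_mem _ (Submodule.sum_mem _ fun j _ => ?_))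
      exact Submodule.smul_mem _ _ (Submodule.subset_span ⟨j, rfl⟩)
    · obtain ⟨j, hj⟩ := Fin.exists_succAbove_eq hi
      rw [← hj]
      exact Submodule.subset_span ⟨j, rfl⟩
  rw [eq_top_iff, ← hf]
  refine Submodule.span_le.2 ?_
  rintro _ ⟨i, rfl⟩
  exact hmem i

end

theorem free_lem : G_FREE := by
  intro R _ _ _ _ x y hR M _ _ _ htf hdiv
  classical
  have hxne : x ≠ 0 := hR.prx.ne_zero
  have hxm : x ∈ IsLocalRing.maximalIdeal R := by
    rw [hR.max]
    exact Ideal.subset_span (by simp)
  -- a generating family of minimal size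
  have hex : ∃ n : ℕ, ∃ f : Fin n → M, Submodule.span R (Set.range f) = ⊤ :=
    Module.Finite.exists_fin
  obtain ⟨f, hf⟩ := Nat.find_spec hex
  have hmin : ∀ m, m < Nat.find hex → ¬ ∃ f : Fin m → M, Submodule.span R (Set.range f) = ⊤ :=
    fun m hm => Nat.find_min hex hm
  generalize Nat.find hex = n at f hf hmin
  -- the main claim
  have main : ∀ c : Fin n → R, ∑ i, c i • f i = 0 → ∀ i, x ∣ c i := by
    intro c hc
    by_contra hcon
    push Not at hcon
    obtain ⟨i1, hi1⟩ := hcon
    have hn : ∀ i, ∃ (k : ℕ) (u : R), ¬ x ∣ c i → IsUnit u ∧ x ∣ c i - u * y ^ k := by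
      intro i
      by_cases h : x ∣ c i
      · exact ⟨0, 0, fun h' => absurd h h'⟩
      · obtain ⟨k, u, h1, h2⟩ := hR.norm _ h
        exact ⟨k, u, fun _ => ⟨h1, h2⟩⟩
    choose k u hku using hn
    obtain ⟨i0, hi0, hi0min⟩ := Finset.exists_min_image (Finset.univ.filter fun i => ¬ x ∣ c i) k
      ⟨i1, by simpa using hi1⟩
    have hi0' : ¬ x ∣ c i0 := by simpa using hi0
    -- the reduced coefficients
    have hc' : ∀ i, ∃ c' e : R, c i - y ^ k i0 * c' = x * e ∧ (i = i0 → IsUnit c') := by
      intro i
      by_cases h : x ∣ c i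
      · obtain ⟨e, he⟩ := h
        exact ⟨0, e, by rw [he]; ring, fun hi => absurd ⟨e, hi ▸ he⟩ hi0'⟩
      · obtain ⟨hu, e, he⟩ := hku i h
        have hle : k i0 ≤ k i := hi0min i (by simpa using h)
        refine ⟨u i * y ^ (k i - k i0), e, ?_, ?_⟩
        · rw [← he]
          have : y ^ k i = y ^ k i0 * y ^ (k i - k i0) := by
            rw [← pow_add, Nat.add_sub_cancel' hle]
          rw [this]; ring
        · rintro rfl
          simpa using hu
    choose c' e hce hcu using hc'
    have h1 : y ^ k i0 • (∑ i, c' i • f i) = x • (-∑ i, e i • f i) := by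
      have h2 : ∑ i, c i • f i = y ^ k i0 • (∑ i, c' i • f i) + x • ∑ i, e i • f i := by
        rw [Finset.smul_sum, Finset.smul_sum, ← Finset.sum_add_distrib]
        refine Finset.sum_congr rfl fun i _ => ?_
        rw [smul_smul, smul_smul, ← add_smul, ← hce i]
        congr 1
        ring
      rw [hc] at h2
      rw [smul_neg]
      exact eq_neg_of_add_eq_zero_left h2.symm
    obtain ⟨m', hm'⟩ := pow_div hdiv _ _ _ h1
    have hm'span : m' ∈ Submodule.span R (Set.range f) := by rw [hf]; trivial
    obtain ⟨d, hd⟩ := (Submodule.mem_span_range_iff_exists_fun R).1 hm'span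
    have hrel : ∑ i, (c' i - x * d i) • f i = 0 := by
      have : ∑ i, (c' i - x * d i) • f i = ∑ i, c' i • f i - x • ∑ i, d i • f i := by
        rw [Finset.smul_sum, ← Finset.sum_sub_distrib]
        refine Finset.sum_congr rfl fun i _ => ?_
        rw [sub_smul, mul_smul]
      rw [this, hm', hd, sub_self]
    have hunit : IsUnit (c' i0 - x * d i0) := by
      by_contra hnu
      have h3 : c' i0 - x * d i0 ∈ IsLocalRing.maximalIdeal R :=
        (IsLocalRing.mem_maximalIdeal _).2 hnu
      have h4 : x * d i0 ∈ IsLocalRing.maximalIdeal R := Ideal.mul_mem_right _ _ hxm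
      have h5 : c' i0 ∈ IsLocalRing.maximalIdeal R := by
        have := Ideal.add_mem _ h3 h4
        simpa using this
      exact (IsLocalRing.mem_maximalIdeal _).1 h5 (hcu i0 rfl)
    cases n with
    | zero => exact i0.elim0
    | succ n =>
      exact hmin n (Nat.lt_succ_self n) (drop_gen f hf i0 _ hunit hrel)
  -- all powers of `x` divide the coefficients of a relation
  have hpow : ∀ (N : ℕ) (c : Fin n → R), ∑ i, c i • f i = 0 → ∀ i, x ^ N ∣ c i := by
    intro N
    induction N with
    | zero => intro c _ i; simp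
    | succ N ih =>
      intro c hc
      choose c' hc' using main c hc
      have h1 : x • (∑ i, c' i • f i) = 0 := by
        rw [Finset.smul_sum]
        rw [← hc]
        refine Finset.sum_congr rfl fun i _ => ?_
        rw [smul_smul, ← hc' i]
      have h2 : ∑ i, c' i • f i = 0 := (htf _ _ h1).resolve_left hxne
      intro i
      rw [hc' i, pow_succ']
      exact mul_dvd_mul_left x (ih c' h2 i)
  have hli : LinearIndependent R f := by
    rw [Fintype.linearIndependent_iff]
    intro c hc i
    by_contra hci
    obtain ⟨N, hN⟩ := FiniteMultiplicity.of_not_isUnit hR.prx.not_isUnit hci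
    exact hN (hpow _ c hc i)
  exact Module.Free.of_basis (Module.Basis.mk hli (by rw [hf]))

end Pool.Agent.Helper27.PY
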